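import Mathlib
import Pool.Agent.helper73.BRZ.Spec

/-!
# Project BRZ (MP_a2a22c_al), row NOR
-/

set_option autoImplicit false

namespace Pool.Agent.BRZ

open Module Pool.Agent.SHL

/-- the determinant of a scalar of an extension field -/
theorem NOR_det {K V : Type} [Field K] [Algebra ℚ K] [AddCommGroup V] [Module ℚ V] [Module K V]
    [IsScalarTower ℚ K V] (k : K) (f : V →ₗ[ℚ] V) (hf : ∀ v, f v = k • v) :
    LinearMap.det f = (Algebra.norm ℚ k) ^ (finrank K V) := by
  have h1 : f = (k • (LinearMap.id : V →ₗ[K] V)).restrictScalars ℚ := by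
    ext v
    exact hf v
  rw [h1, LinearMap.det_restrictScalars, LinearMap.det_smul, LinearMap.det_id, mul_one, map_pow]

/-- a field in a division ring through an element -/
theorem NOR_field {D : Type} [DivisionRing D] [Algebra ℚ D] [FiniteDimensional ℚ D] (x : D) :
    ∃ (K : Type) (_ : Field K) (_ : Algebra ℚ K) (_ : FiniteDimensional ℚ K) (φ : K →+* D) (k : K),
      φ k = x := by
  have hint : IsIntegral ℚ x := IsIntegral.of_finite ℚ x
  have hirr : Irreducible (minpoly ℚ x) := minpoly.irreducible hint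
  haveI : Fact (Irreducible (minpoly ℚ x)) := ⟨hirr⟩
  haveI : FiniteDimensional ℚ (AdjoinRoot (minpoly ℚ x)) :=
    (AdjoinRoot.powerBasis hirr.ne_zero).finite
  let φ : AdjoinRoot (minpoly ℚ x) →+* D :=
    Ideal.Quotient.lift (Ideal.span {minpoly ℚ x})
      ((Polynomial.aeval x : Polynomial ℚ →ₐ[ℚ] D) : Polynomial ℚ →+* D) (by
        intro a ha
        obtain ⟨b, rfl⟩ := Ideal.mem_span_singleton'.1 ha
        show (Polynomial.aeval x) (b * minpoly ℚ x) = 0
        rw [map_mul, minpoly.aeval, mul_zero])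
  refine ⟨AdjoinRoot (minpoly ℚ x), inferInstance, inferInstance, inferInstance, φ,
    AdjoinRoot.root (minpoly ℚ x), ?_⟩
  show (Polynomial.aeval x : Polynomial ℚ →ₐ[ℚ] D) Polynomial.X = x
  exact Polynomial.aeval_X x

/-- the opposite homomorphism from a field -/
def NOR_op {K D : Type} [Field K] [DivisionRing D] (φ : K →+* D) : K →+* Dᵐᵒᵖ where
  toFun k := MulOpposite.op (φ k)
  map_one' := by rw [map_one, MulOpposite.op_one]
  map_zero' := by rw [map_zero, MulOpposite.op_zero]
  map_add' a b := by rw [map_add, MulOpposite.op_add]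
  map_mul' a b := by rw [mul_comm a b, map_mul, MulOpposite.op_mul]

theorem NOR_lr {K D : Type} [Field K] [Algebra ℚ K] [FiniteDimensional ℚ K] [DivisionRing D]
    [Algebra ℚ D] [FiniteDimensional ℚ D] (φ : K →+* D) (k : K) :
    LinearMap.det (LinearMap.mulRight ℚ (φ k)) = LinearMap.det (LinearMap.mulLeft ℚ (φ k)) := by
  have hφ : ∀ (q : ℚ) (a : K), φ (q • a) = q • φ a := by
    intro q a
    rw [Algebra.smul_def, map_mul, Algebra.smul_def]
    congr 1
    exact RingHom.congr_fun (Subsingleton.elim (φ.comp (algebraMap ℚ K)) (algebraMap ℚ D)) q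
  have hpos : 0 < finrank ℚ K := finrank_pos
  have hl : ∃ r, finrank ℚ K * r = finrank ℚ D ∧
      LinearMap.det (LinearMap.mulLeft ℚ (φ k)) = (Algebra.norm ℚ k) ^ r := by
    letI : Module K D := Module.compHom D φ
    have hs : ∀ (a : K) (v : D), a • v = φ a * v := fun a v => rfl
    haveI : IsScalarTower ℚ K D := ⟨fun q a v => by
      rw [hs, hs, hφ, smul_mul_assoc]⟩
    exact ⟨finrank K D, Module.finrank_mul_finrank ℚ K D, NOR_det k _ (fun v => rfl)⟩
  have hr : ∃ r, finrank ℚ K * r = finrank ℚ D ∧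
      LinearMap.det (LinearMap.mulRight ℚ (φ k)) = (Algebra.norm ℚ k) ^ r := by
    letI : Module K D := Module.compHom D (NOR_op φ)
    have hs : ∀ (a : K) (v : D), a • v = v * φ a := fun a v => rfl
    haveI : IsScalarTower ℚ K D := ⟨fun q a v => by
      rw [hs, hs, hφ, mul_smul_comm]⟩
    exact ⟨finrank K D, Module.finrank_mul_finrank ℚ K D, NOR_det k _ (fun v => rfl)⟩
  obtain ⟨r, hr1, hr2⟩ := hr
  obtain ⟨l, hl1, hl2⟩ := hl
  have h : r = l := Nat.eq_of_mul_eq_mul_left hpos (hr1.trans hl1.symm)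
  rw [hr2, hl2, h]

theorem NOR : NOR_stmt := by
  intro D _ _ _ x
  have hmul : ∀ a b : D, nor (a * b) = nor a * nor b := by
    intro a b
    show LinearMap.det (LinearMap.mulLeft ℚ (a * b)) =
      LinearMap.det (LinearMap.mulLeft ℚ a) * LinearMap.det (LinearMap.mulLeft ℚ b)
    rw [LinearMap.mulLeft_mul, LinearMap.det_comp]
  refine ⟨?_, hmul x, ?_⟩
  · obtain ⟨K, _, _, _, φ, k, rfl⟩ := NOR_field x
    exact NOR_lr φ k
  · intro hx h0
    have h1 := hmul x x⁻¹
    rw [mul_inv_cancel₀ hx, h0, zero_mul] at h1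
    have h2 : nor (1 : D) = 1 := by
      show LinearMap.det (LinearMap.mulLeft ℚ (1 : D)) = 1
      rw [LinearMap.mulLeft_one, LinearMap.det_id]
    rw [h2] at h1
    exact one_ne_zero h1

end Pool.Agent.BRZ
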